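import Pool.Agent.H92.TN2

namespace Pool.Agent.Results.MP_6b55e5_an.TubeNull
open MeasureTheory Set

/-- The Euclidean plane. -/
abbrev P := EuclideanSpace ℝ (Fin 2)

/-- The closed strip of width `w` between two parallel lines with unit normal `u`. -/
def Strip (u : P) (c w : ℝ) : Set P := {p | c ≤ inner ℝ u p ∧ inner ℝ u p ≤ c + w}

/-- Property (S): coverings by countably many strips of arbitrarily small total width. -/
def PropS (E : Set P) : Prop :=
  ∀ ε : ℝ, 0 < ε → ∃ (ι : Type) (_ : Countable ι) (u : ι → P) (c w : ι → ℝ),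
    (∀ i, ‖u i‖ = 1 ∧ 0 < w i) ∧ E ⊆ ⋃ i, Strip (u i) (c i) (w i) ∧
      ∑' i, ENNReal.ofReal (w i) < ENNReal.ofReal ε

/-- Besicovitch set: bounded, Lebesgue null, with a unit segment in every direction. -/
def Besicovitch (E : Set P) : Prop :=
  Bornology.IsBounded E ∧ volume E = 0 ∧ ∀ e : P, ‖e‖ = 1 → ∃ q : P, segment ℝ q (q + e) ⊆ E

theorem result : ∃ E : Set P, Besicovitch E ∧ PropS E :=
  Pool.Agent.H92.TN.exists_besi

end Pool.Agent.Results.MP_6b55e5_an.TubeNull
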